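import Pool.Agent.Work.MP_3e81b4_47.Interface

set_option autoImplicit false

/-! Transfer between the iid multigraph model and uniform simple graphs: `tr1`, `tr2`. -/

namespace Pool.ER.TR

open Set

/-- non-diagonal unordered pairs -/
abbrev Edg (n : ℕ) : Type := {e : Sym2 (Fin n) // ¬ e.IsDiag}

/-- the unordered edge of an ordered pair -/
noncomputable def q {n : ℕ} (e : Fin n × Fin n) : Option (Edg n) :=
  open Classical in
  if h : e.1 = e.2 then none else some ⟨s(e.1, e.2), by simpa using h⟩

theorem q_eq_none {n : ℕ} (e : Fin n × Fin n) : q e = none ↔ e.1 = e.2 := by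
  unfold q
  split_ifs with h
  · simp [h]
  · simp [h]

theorem q_eq_some {n : ℕ} (e : Fin n × Fin n) (d : Edg n) :
    q e = some d ↔ s(e.1, e.2) = d.1 := by
  unfold q
  split_ifs with h
  · constructor
    · intro h'; simp at h'
    · intro h'
      exfalso
      apply d.2
      rw [← h', h]
      exact Sym2.mk_isDiag_iff.2 rfl
  · rw [Option.some_inj, Subtype.ext_iff]

/-- set of distinct edges -/
noncomputable def supp {n M : ℕ} (x : Fin M → Fin n × Fin n) : Finset (Edg n) :=
  open Classical in Finset.univ.filter fun e => ∃ i, q (x i) = some e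

theorem mem_supp {n M : ℕ} (x : Fin M → Fin n × Fin n) (e : Edg n) :
    e ∈ supp x ↔ ∃ i, q (x i) = some e := by
  unfold supp; simp

/-- `f` is proper on the unordered edge -/
def prp {n k : ℕ} (f : Fin n → Fin k) (e : Edg n) : Prop := ∀ a b, e.1 = s(a, b) → f a ≠ f b

def Col (k : ℕ) {n : ℕ} (S : Finset (Edg n)) : Prop := ∃ f : Fin n → Fin k, ∀ e ∈ S, prp f e

theorem Col_mono {k n : ℕ} {S T : Finset (Edg n)} (h : S ⊆ T) : Col k T → Col k S :=
  fun ⟨f, hf⟩ => ⟨f, fun e he => hf e (h he)⟩

theorem Y_eq_zero_iff {k n M : ℕ} (x : Fin M → Fin n × Fin n) :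
    Y k (range x) = 0 ↔ Col k (supp x) := by
  have hne : ({c : ℕ | ∃ σ : PC (Fin n) k, valid σ (range x) ∧ cost σ = c} : Set ℕ) ≠ ∅ := by
    apply Set.Nonempty.ne_empty
    exact ⟨_, fun _ => none, fun e _ => Or.inr (Or.inl rfl), rfl⟩
  unfold Y
  rw [Nat.sInf_eq_zero]
  simp only [hne, or_false]
  constructor
  · rintro ⟨σ, hσ, hc⟩
    have hc' : ∀ v, σ v ≠ none := by
      unfold cost at hc
      rw [Nat.card_eq_zero] at hc
      rcases hc with hc | hc
      · intro v hv; exact hc.false ⟨v, hv⟩
      · exact absurd hc (not_infinite_iff_finite.2 inferInstance)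
    choose f hf using fun v => Option.ne_none_iff_exists'.1 (hc' v)
    refine ⟨f, ?_⟩
    intro e he a b hab
    rw [mem_supp] at he
    obtain ⟨i, hi⟩ := he
    rw [q_eq_some, hab] at hi
    have h1 := hσ (x i) (mem_range_self i)
    unfold ok at h1
    have hne : a ≠ b := by
      intro h'
      apply e.2
      rw [hab, h']
      exact Sym2.mk_isDiag_iff.2 rfl
    rw [Sym2.eq_iff] at hi
    rcases hi with ⟨h2, h3⟩ | ⟨h2, h3⟩
    · rw [h2, h3] at h1
      rcases h1 with h1 | h1 | h1
      · exact absurd h1 hne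
      · exact absurd h1 (hc' a)
      · intro h4; apply h1; rw [hf a, hf b, h4]
    · rw [h2, h3] at h1
      rcases h1 with h1 | h1 | h1
      · exact absurd h1.symm hne
      · exact absurd h1 (hc' b)
      · intro h4; apply h1; rw [hf a, hf b, h4]
  · rintro ⟨f, hf⟩
    refine ⟨fun v => some (f v), ?_, ?_⟩
    · rintro e ⟨i, rfl⟩
      by_cases h : (x i).1 = (x i).2
      · exact Or.inl h
      · refine Or.inr (Or.inr ?_)
        have h1 : (⟨s((x i).1, (x i).2), by simpa using h⟩ : Edg n) ∈ supp x := by
          rw [mem_supp]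
          exact ⟨i, (q_eq_some _ _).2 rfl⟩
        have h2 := hf _ h1 _ _ rfl
        intro h3
        exact h2 (Option.some_injective _ h3)
    · unfold cost
      rw [Nat.card_eq_zero]
      left
      exact ⟨fun v => by simpa using v.2⟩

/-! ### graphs and finsets of edges -/

noncomputable def grEquiv (n : ℕ) : Finset (Edg n) ≃ SimpleGraph (Fin n) where
  toFun S := SimpleGraph.fromEdgeSet (Subtype.val '' (S : Set (Edg n)))
  invFun G := open Classical in Finset.univ.filter fun e => e.1 ∈ G.edgeSet
  left_inv S := by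
    ext e
    simp only [Finset.mem_filter, Finset.mem_univ, true_and, SimpleGraph.edgeSet_fromEdgeSet]
    constructor
    · rintro ⟨⟨e', he', h⟩, -⟩
      rw [← Subtype.ext h]; exact he'
    · intro h
      exact ⟨⟨e, h, rfl⟩, e.2⟩
  right_inv G := by
    rw [← SimpleGraph.edgeSet_inj, SimpleGraph.edgeSet_fromEdgeSet]
    ext e
    constructor
    · rintro ⟨⟨e', he', rfl⟩, -⟩
      simpa using he'
    · intro h
      have hd : ¬ e.IsDiag := G.not_isDiag_of_mem_edgeSet h
      refine ⟨⟨⟨e, hd⟩, ?_, rfl⟩, hd⟩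
      simpa using h

theorem edgeSet_gr {n : ℕ} (S : Finset (Edg n)) :
    (grEquiv n S).edgeSet = Subtype.val '' (S : Set (Edg n)) := by
  show (SimpleGraph.fromEdgeSet (Subtype.val '' (S : Set (Edg n)))).edgeSet = _
  rw [SimpleGraph.edgeSet_fromEdgeSet]
  ext e
  constructor
  · rintro ⟨h, -⟩; exact h
  · rintro ⟨e', he', rfl⟩
    exact ⟨⟨e', he', rfl⟩, e'.2⟩

theorem ncard_gr {n : ℕ} (S : Finset (Edg n)) : (grEquiv n S).edgeSet.ncard = S.card := by
  rw [edgeSet_gr, Set.ncard_image_of_injective _ Subtype.val_injective, Set.ncard_coe_finset]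

theorem col_gr {k n : ℕ} (S : Finset (Edg n)) : (grEquiv n S).Colorable k ↔ Col k S := by
  constructor
  · rintro ⟨C⟩
    refine ⟨fun v => C v, ?_⟩
    intro e he a b hab
    apply C.valid
    rw [← SimpleGraph.mem_edgeSet, edgeSet_gr]
    exact ⟨e, he, hab⟩
  · rintro ⟨f, hf⟩
    refine ⟨SimpleGraph.Coloring.mk f ?_⟩
    intro a b hab
    rw [← SimpleGraph.mem_edgeSet, edgeSet_gr] at hab
    obtain ⟨e, he, h⟩ := hab
    exact hf e he a b h

theorem ps_eq (k n m : ℕ) :
    ps k n m = (Nat.card {S : Finset (Edg n) // S.card = m ∧ Col k S} : ℝ) /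
      (Nat.card {S : Finset (Edg n) // S.card = m} : ℝ) := by
  unfold ps
  congr 2
  · apply Nat.card_congr
    refine (Equiv.subtypeEquiv (grEquiv n) ?_).symm
    intro S
    rw [ncard_gr, col_gr]
  · apply Nat.card_congr
    refine (Equiv.subtypeEquiv (grEquiv n) ?_).symm
    intro S
    rw [ncard_gr]

/-! ### random permutations -/

theorem exists_perm {α : Type} [Fintype α] [DecidableEq α] {S T : Finset α}
    (h : T.card = S.card) : ∃ π : Equiv.Perm α, T.map π.toEmbedding = S := by
  let e : {x // x ∈ T} ≃ {x // x ∈ S} := Finset.equivOfCardEq h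
  refine ⟨e.extendSubtype, ?_⟩
  apply Finset.eq_of_subset_of_card_le
  · intro y hy
    rw [Finset.mem_map] at hy
    obtain ⟨a, ha, rfl⟩ := hy
    exact Equiv.extendSubtype_mem e a ha
  · rw [Finset.card_map, h]

theorem pr_perm {α : Type} [Fintype α] [DecidableEq α] (T : Finset α) (P : Finset α → Prop) :
    pr (fun π : Equiv.Perm α => P (T.map π.toEmbedding)) =
      (Nat.card {S : Finset α // S.card = T.card ∧ P S} : ℝ) /
      (Nat.card {S : Finset α // S.card = T.card} : ℝ) := by
  classical
  set K : ℕ := (Finset.univ.filter fun π : Equiv.Perm α => T.map π.toEmbedding = T).card with hK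
  have hKpos : 0 < K := by
    rw [hK, Finset.card_pos]
    refine ⟨1, ?_⟩
    rw [Finset.mem_filter]
    refine ⟨Finset.mem_univ _, ?_⟩
    ext a
    rw [Finset.mem_map]
    constructor
    · rintro ⟨b, hb, rfl⟩; exact hb
    · intro ha; exact ⟨a, ha, rfl⟩
  have hfib : ∀ S ∈ Finset.powersetCard T.card (Finset.univ : Finset α),
      (Finset.univ.filter fun π : Equiv.Perm α => T.map π.toEmbedding = S).card = K := by
    intro S hS
    rw [Finset.mem_powersetCard] at hS
    obtain ⟨ρ, hρ⟩ := exists_perm (α := α) (S := S) (T := T) hS.2.symm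
    rw [hK]
    symm
    apply Finset.card_bij (fun π _ => ρ * π)
    · intro π hπ
      rw [Finset.mem_filter] at hπ ⊢
      refine ⟨Finset.mem_univ _, ?_⟩
      rw [← hρ]
      conv_rhs => rw [← hπ.2]
      rw [Finset.map_map]
      rfl
    · intro a _ b _ hab
      exact mul_left_cancel hab
    · intro π hπ
      rw [Finset.mem_filter] at hπ
      refine ⟨ρ⁻¹ * π, ?_, by simp⟩
      rw [Finset.mem_filter]
      refine ⟨Finset.mem_univ _, ?_⟩
      have h1 : T.map (ρ⁻¹ * π).toEmbedding = (T.map π.toEmbedding).map (ρ⁻¹).toEmbedding := by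
        rw [Finset.map_map]; rfl
      rw [h1, hπ.2, ← hρ, Finset.map_map]
      ext a
      simp
  have hmaps : ∀ π ∈ (Finset.univ : Finset (Equiv.Perm α)),
      T.map π.toEmbedding ∈ Finset.powersetCard T.card (Finset.univ : Finset α) := by
    intro π _
    rw [Finset.mem_powersetCard]
    exact ⟨Finset.subset_univ _, Finset.card_map _⟩
  have hsum : ∀ f : Finset α → ℝ, ∑ π : Equiv.Perm α, f (T.map π.toEmbedding) =
      K * ∑ S ∈ Finset.powersetCard T.card (Finset.univ : Finset α), f S := by
    intro f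
    rw [← Finset.sum_fiberwise_of_maps_to' hmaps f, Finset.mul_sum]
    apply Finset.sum_congr rfl
    intro S hS
    rw [Finset.sum_const, hfib S hS, nsmul_eq_mul]
  have h1 := hsum fun S => ind (P S)
  have h2 := hsum fun _ => 1
  have hc1 : (Nat.card {S : Finset α // S.card = T.card ∧ P S} : ℝ) =
      ∑ S ∈ Finset.powersetCard T.card (Finset.univ : Finset α), ind (P S) := by
    have : (∑ S ∈ Finset.powersetCard T.card (Finset.univ : Finset α), ind (P S)) =
        ((Finset.powersetCard T.card (Finset.univ : Finset α)).filter fun S => P S).card := by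
      rw [Finset.card_filter]
      push_cast
      apply Finset.sum_congr rfl
      intro S _
      unfold ind
      split_ifs <;> simp
    rw [this, Nat.card_eq_fintype_card, Fintype.card_subtype]
    congr 2
    ext S
    simp [Finset.mem_powersetCard]
  have hc2 : (Nat.card {S : Finset α // S.card = T.card} : ℝ) =
      ∑ S ∈ Finset.powersetCard T.card (Finset.univ : Finset α), (1 : ℝ) := by
    rw [Nat.card_eq_fintype_card, Fintype.card_subtype, Finset.sum_const, nsmul_eq_mul, mul_one]
    congr 2
    ext S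
    simp [Finset.mem_powersetCard]
  unfold pr avg
  rw [h1, hc1, hc2]
  have h3 : (Fintype.card (Equiv.Perm α) : ℝ) =
      K * ∑ S ∈ Finset.powersetCard T.card (Finset.univ : Finset α), (1 : ℝ) := by
    rw [← h2]; simp
  rw [h3, mul_div_mul_left]
  exact_mod_cast hKpos.ne'

theorem pr_perm_col (k n : ℕ) (T : Finset (Edg n)) :
    pr (fun π : Equiv.Perm (Edg n) => Col k (T.map π.toEmbedding)) = ps k n T.card := by
  classical
  rw [ps_eq, pr_perm T (Col k)]

/-! ### invariance -/

theorem card_fiber {n : ℕ} (d : Edg n) :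
    Fintype.card {e : Fin n × Fin n // q e = some d} = 2 := by
  classical
  obtain ⟨d, hd⟩ := d
  induction d using Sym2.ind with
  | _ u v =>
    have huv : u ≠ v := by
      intro h; apply hd; rw [h]; exact Sym2.mk_isDiag_iff.2 rfl
    rw [Fintype.card_subtype]
    have : (Finset.univ.filter fun e : Fin n × Fin n => q e = some ⟨s(u, v), hd⟩) =
        {(u, v), (v, u)} := by
      ext ⟨a, b⟩
      rw [Finset.mem_filter, q_eq_some]
      simp only [Finset.mem_univ, true_and, Finset.mem_insert, Finset.mem_singleton,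
        Prod.mk.injEq]
      rw [Sym2.eq_iff]
    rw [this, Finset.card_pair]
    intro h
    rw [Prod.mk.injEq] at h
    exact huv h.1

theorem exists_lift {n : ℕ} (π : Equiv.Perm (Edg n)) :
    ∃ Φ : (Fin n × Fin n) ≃ (Fin n × Fin n), ∀ e, q (Φ e) = Option.map π (q e) := by
  classical
  have H : ∀ c : Option (Edg n),
      Nonempty ({a : Fin n × Fin n // Option.map π (q a) = c} ≃ {b : Fin n × Fin n // q b = c}) := by
    intro c
    cases c with
    | none =>
      refine ⟨Equiv.subtypeEquivRight ?_⟩
      intro a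
      rw [Option.map_eq_none_iff]
    | some d =>
      have h1 : Fintype.card {a : Fin n × Fin n // Option.map π (q a) = some d} =
          Fintype.card {a : Fin n × Fin n // q a = some (π.symm d)} := by
        apply Fintype.card_congr
        refine Equiv.subtypeEquivRight ?_
        intro a
        cases hqa : q a with
        | none => simp
        | some c =>
          simp only [Option.map_some, Option.some_inj]
          rw [Equiv.eq_symm_apply]
      have h2 := card_fiber (π.symm d)
      have h3 := card_fiber d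
      exact ⟨Fintype.equivOfCardEq (by rw [h1, h2, h3])⟩
  let E := fun c => (H c).some
  refine ⟨Equiv.ofFiberEquiv E, ?_⟩
  intro e
  exact Equiv.ofFiberEquiv_map E e

theorem supp_comp {n M : ℕ} (π : Equiv.Perm (Edg n)) (Φ : (Fin n × Fin n) ≃ (Fin n × Fin n))
    (hΦ : ∀ e, q (Φ e) = Option.map π (q e)) (x : Fin M → Fin n × Fin n) :
    supp (Φ ∘ x) = (supp x).map π.toEmbedding := by
  ext d
  rw [mem_supp, Finset.mem_map]
  simp only [Function.comp, hΦ, mem_supp, Option.map_eq_some_iff]
  constructor
  · rintro ⟨i, a, ha, rfl⟩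
    exact ⟨a, ⟨i, ha⟩, rfl⟩
  · rintro ⟨a, ⟨i, ha⟩, rfl⟩
    exact ⟨i, a, ha, rfl⟩

theorem pr_inv {n M : ℕ} (π : Equiv.Perm (Edg n)) (P : Finset (Edg n) → Prop) :
    pr (fun x : Fin M → Fin n × Fin n => P (supp x)) =
      pr (fun x : Fin M → Fin n × Fin n => P ((supp x).map π.toEmbedding)) := by
  obtain ⟨Φ, hΦ⟩ := exists_lift π
  rw [← pr_equiv (Equiv.arrowCongr (Equiv.refl (Fin M)) Φ)
    (fun x : Fin M → Fin n × Fin n => P (supp x))]
  apply pr_congr
  intro x
  have : (Equiv.arrowCongr (Equiv.refl (Fin M)) Φ) x = Φ ∘ x := by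
    funext i; rfl
  rw [this, supp_comp π Φ hΦ x]

theorem pr_avg {n M : ℕ} (P : Finset (Edg n) → Prop) :
    pr (fun x : Fin M → Fin n × Fin n => P (supp x)) =
      avg fun x : Fin M → Fin n × Fin n =>
        pr fun π : Equiv.Perm (Edg n) => P ((supp x).map π.toEmbedding) := by
  unfold pr
  rw [avg_comm]
  have : (fun π : Equiv.Perm (Edg n) => avg fun x : Fin M → Fin n × Fin n =>
      ind (P ((supp x).map π.toEmbedding))) = fun _ => avg fun x : Fin M → Fin n × Fin n =>
        ind (P (supp x)) := by
    funext π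
    exact (pr_inv π P).symm
  rw [this, avg_const]

theorem card_supp_le {n M : ℕ} (x : Fin M → Fin n × Fin n) : (supp x).card ≤ M := by
  classical
  have h : (supp x).image some ⊆ Finset.univ.image (fun i => q (x i)) := by
    intro c hc
    rw [Finset.mem_image] at hc
    obtain ⟨e, he, rfl⟩ := hc
    rw [mem_supp] at he
    obtain ⟨i, hi⟩ := he
    rw [Finset.mem_image]
    exact ⟨i, Finset.mem_univ _, hi⟩
  calc (supp x).card = ((supp x).image some).card :=
        (Finset.card_image_of_injective _ (Option.some_injective _)).symm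
    _ ≤ _ := Finset.card_le_card h
    _ ≤ (Finset.univ : Finset (Fin M)).card := Finset.card_image_le
    _ = M := by simp

theorem pc_eq (k n M : ℕ) : pc k n M = pr fun x : Fin M → Fin n × Fin n => Col k (supp x) := by
  unfold pc
  apply pr_congr
  intro x
  exact Y_eq_zero_iff x

end Pool.ER.TR

namespace Pool.ER

open TR

theorem tr1 : StmtTransfer1 := by
  classical
  intro k n m _ hn hm
  have : Nonempty (Fin n) := ⟨⟨0, hn⟩⟩
  rw [pc_eq, pr_avg]
  apply le_avg_of_le
  intro x
  have hcard : Fintype.card (Edg n) = n.choose 2 := by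
    rw [Sym2.card_subtype_not_diag, Fintype.card_fin]
  obtain ⟨T, hT, hTc⟩ := Finset.exists_superset_card_eq (s := supp x) (n := m)
    (card_supp_le x) (by rw [hcard]; exact hm)
  have h := pr_perm_col k n T
  rw [hTc] at h
  rw [← h]
  apply pr_mono
  intro π hπ
  exact Col_mono (Finset.map_subset_map.2 hT) hπ

end Pool.ER

namespace Pool.ER.TR

/-- the bad indices: loops and repetitions -/
def bad {n M : ℕ} (x : Fin M → Fin n × Fin n) (i : Fin M) : Prop :=
  q (x i) = none ∨ ∃ j, j ≠ i ∧ j < i ∧ q (x j) = q (x i) ∧ q (x i) ≠ none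

theorem card_good_le {n M : ℕ} (x : Fin M → Fin n × Fin n) :
    (M : ℝ) ≤ (supp x).card + ∑ i, ind (bad x i) := by
  classical
  have h1 : (∑ i, ind (bad x i)) = ((Finset.univ.filter fun i => bad x i).card : ℝ) := by
    rw [Finset.card_filter]
    push_cast
    apply Finset.sum_congr rfl
    intro i _
    unfold ind
    split_ifs <;> simp
  rw [h1]
  have h2 : (Finset.univ.filter fun i => ¬ bad x i).card ≤ (supp x).card := by
    have h3 : (Finset.univ.filter fun i => ¬ bad x i).image (fun i => q (x i)) ⊆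
        (supp x).image some := by
      intro c hc
      rw [Finset.mem_image] at hc
      obtain ⟨i, hi, rfl⟩ := hc
      rw [Finset.mem_filter] at hi
      have h4 : q (x i) ≠ none := fun h => hi.2 (Or.inl h)
      obtain ⟨e, he⟩ := Option.ne_none_iff_exists'.1 h4
      rw [Finset.mem_image]
      refine ⟨e, ?_, he.symm⟩
      rw [mem_supp]
      exact ⟨i, he⟩
    have h5 : Set.InjOn (fun i => q (x i)) (Finset.univ.filter fun i => ¬ bad x i : Finset (Fin M)) := by
      intro i hi j hj hij
      rw [Finset.mem_coe, Finset.mem_filter] at hi hj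
      have hi0 : q (x i) ≠ none := fun h => hi.2 (Or.inl h)
      have hj0 : q (x j) ≠ none := fun h => hj.2 (Or.inl h)
      by_contra hne
      rcases lt_or_gt_of_ne hne with h | h
      · exact hj.2 (Or.inr ⟨i, hne, h, hij, hj0⟩)
      · exact hi.2 (Or.inr ⟨j, fun h' => hne h'.symm, h, hij.symm, hi0⟩)
    rw [← Finset.card_image_of_injOn h5]
    refine (Finset.card_le_card h3).trans ?_
    exact Finset.card_image_le
  have h3 : (Finset.univ.filter fun i => bad x i).card +
      (Finset.univ.filter fun i => ¬ bad x i).card = M := by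
    have := Finset.card_filter_add_card_filter_not (s := (Finset.univ : Finset (Fin M)))
      (fun i => bad x i)
    rw [this]
    simp
  have h4 : M ≤ (supp x).card + (Finset.univ.filter fun i => bad x i).card := by omega
  exact_mod_cast h4

theorem avg_one {E : Type} [Fintype E] [Nonempty E] {M : ℕ} (i : Fin M) (f : E → ℝ) :
    (avg fun x : Fin M → E => f (x i)) = avg f := by
  have h1 := avg_marginal (E := E) (fun _ : Unit => i) (fun a b _ => Subsingleton.elim a b)
    (fun g => f (g ()))
  have h2 := avg_equiv (Equiv.funUnique Unit E) f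
  rw [← h2]
  exact h1

theorem avg_two {E : Type} [Fintype E] [Nonempty E] {M : ℕ} (i j : Fin M) (hij : i ≠ j)
    (f : E → E → ℝ) :
    (avg fun x : Fin M → E => f (x i) (x j)) = avg fun p : E × E => f p.1 p.2 := by
  have h1 := avg_marginal (E := E) (fun b : Fin 2 => if b = 0 then i else j) (by
      intro a b hab
      fin_cases a <;> fin_cases b <;> simp_all)
    (fun g => f (g 0) (g 1))
  have h2 := avg_equiv (finTwoArrowEquiv E) (fun p : E × E => f p.1 p.2)
  rw [← h2]
  exact h1

theorem pr_loop {n : ℕ} (hn : 1 ≤ n) :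
    pr (fun e : Fin n × Fin n => q e = none) ≤ 1 / n := by
  classical
  have hn' : (0 : ℝ) < n := by exact_mod_cast hn
  rw [pr_eq_ncard]
  have : ({e : Fin n × Fin n | q e = none}).ncard ≤ n := by
    have h1 : ({e : Fin n × Fin n | q e = none}) ⊆ (fun a : Fin n => (a, a)) '' Set.univ := by
      rintro ⟨a, b⟩ h
      have h' : a = b := (q_eq_none _).1 h
      exact ⟨a, Set.mem_univ _, by rw [h']⟩
    refine (Set.ncard_le_ncard h1 (Set.toFinite _)).trans ?_
    refine (Set.ncard_image_le (Set.toFinite _)).trans ?_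
    rw [Set.ncard_univ, Nat.card_eq_fintype_card, Fintype.card_fin]
  rw [Fintype.card_prod, Fintype.card_fin]
  push_cast
  rw [div_le_div_iff₀ (by positivity) hn']
  have : (({e : Fin n × Fin n | q e = none}).ncard : ℝ) ≤ n := by exact_mod_cast this
  nlinarith

theorem pr_pair {n : ℕ} (hn : 1 ≤ n) :
    pr (fun p : (Fin n × Fin n) × (Fin n × Fin n) => q p.2 = q p.1 ∧ q p.1 ≠ none)
      ≤ 2 / (n : ℝ) ^ 2 := by
  classical
  have hn' : (0 : ℝ) < n := by exact_mod_cast hn
  apply pr_prod_le (by positivity)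
  intro e
  show pr (fun b : Fin n × Fin n => q b = q e ∧ q e ≠ none) ≤ 2 / (n : ℝ) ^ 2
  cases hq : q e with
  | none =>
    have : pr (fun b : Fin n × Fin n => q b = none ∧ (none : Option (Edg n)) ≠ none) ≤ 0 := by
      apply avg_le_of_le le_rfl
      intro b
      rw [ind_false (by simp)]
    exact this.trans (by positivity)
  | some d =>
    have h1 : pr (fun b : Fin n × Fin n => q b = some d ∧ (some d : Option (Edg n)) ≠ none) ≤
        pr (fun b : Fin n × Fin n => q b = some d) := pr_mono fun b h => h.1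
    refine h1.trans ?_
    rw [pr_eq_ncard]
    have h2 : ({e : Fin n × Fin n | q e = some d}).ncard = 2 := by
      rw [← Nat.card_coe_set_eq, Nat.card_eq_fintype_card]
      exact card_fiber d
    rw [h2, Fintype.card_prod, Fintype.card_fin]
    push_cast
    rw [sq]

theorem avg_bad {n M : ℕ} (hn : 1 ≤ n) :
    (avg fun x : Fin M → Fin n × Fin n => ∑ i, ind (bad x i)) ≤
      ((M : ℝ) / n + (M : ℝ) ^ 2 / n ^ 2) * 2 := by
  classical
  have : Nonempty (Fin n) := ⟨⟨0, hn⟩⟩
  have hn' : (0 : ℝ) < n := by exact_mod_cast hn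
  rw [avg_sum]
  have h1 : ∀ i : Fin M, (avg fun x : Fin M → Fin n × Fin n => ind (bad x i)) ≤
      1 / n + M * (2 / (n : ℝ) ^ 2) := by
    intro i
    have h2 : ∀ x : Fin M → Fin n × Fin n, ind (bad x i) ≤ ind (q (x i) = none) +
        ∑ j, ind (j ≠ i ∧ q (x j) = q (x i) ∧ q (x i) ≠ none) := by
      intro x
      refine (ind_or_le _ _).trans ?_
      refine add_le_add le_rfl ?_
      refine (ind_mono (q := ∃ j ∈ (Finset.univ : Finset (Fin M)),
        (j ≠ i ∧ q (x j) = q (x i) ∧ q (x i) ≠ none)) ?_).trans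
        (ind_exists_le Finset.univ fun j => (j ≠ i ∧ q (x j) = q (x i) ∧ q (x i) ≠ none))
      rintro ⟨j, h1, _, h2⟩
      exact ⟨j, Finset.mem_univ _, h1, h2⟩
    refine (avg_mono h2).trans ?_
    rw [avg_add, avg_sum]
    have h3 : (avg fun x : Fin M → Fin n × Fin n => ind (q (x i) = none)) ≤ 1 / n := by
      rw [avg_one i (fun e : Fin n × Fin n => ind (q e = none))]
      exact pr_loop hn
    have h4 : ∀ j : Fin M, (avg fun x : Fin M → Fin n × Fin n =>
        ind (j ≠ i ∧ q (x j) = q (x i) ∧ q (x i) ≠ none)) ≤ 2 / (n : ℝ) ^ 2 := by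
      intro j
      by_cases hji : j = i
      · refine avg_le_of_le (by positivity) fun x => ?_
        rw [ind_false (fun h => h.1 hji)]
        positivity
      · have h5 := avg_two i j (fun h => hji h.symm)
          (fun a b : Fin n × Fin n => ind (q b = q a ∧ q a ≠ none))
        have h6 : (avg fun x : Fin M → Fin n × Fin n =>
            ind (j ≠ i ∧ q (x j) = q (x i) ∧ q (x i) ≠ none)) =
            avg fun x : Fin M → Fin n × Fin n => ind (q (x j) = q (x i) ∧ q (x i) ≠ none) := by
          congr 1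
          funext x
          exact ind_congr ⟨fun h => h.2, fun h => ⟨hji, h⟩⟩
        rw [h6, h5]
        exact pr_pair hn
    calc _ ≤ 1 / (n : ℝ) + ∑ j : Fin M, 2 / (n : ℝ) ^ 2 :=
          add_le_add h3 (Finset.sum_le_sum fun j _ => h4 j)
      _ = _ := by rw [Finset.sum_const, Finset.card_univ, Fintype.card_fin, nsmul_eq_mul]
  calc _ ≤ ∑ i : Fin M, (1 / (n : ℝ) + M * (2 / (n : ℝ) ^ 2)) :=
        Finset.sum_le_sum fun i _ => h1 i
    _ = M * (1 / (n : ℝ) + M * (2 / (n : ℝ) ^ 2)) := by
        rw [Finset.sum_const, Finset.card_univ, Fintype.card_fin, nsmul_eq_mul]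
    _ = (M : ℝ) / n + (M : ℝ) ^ 2 / n ^ 2 * 2 := by ring
    _ ≤ _ := by
        have : (0:ℝ) ≤ (M : ℝ) / n := by positivity
        nlinarith

end Pool.ER.TR

namespace Pool.ER

open TR

theorem tr2 : StmtTransfer2 := by
  classical
  intro k n M a _ hn ha _
  have : Nonempty (Fin n) := ⟨⟨0, hn⟩⟩
  have ha' : (0 : ℝ) < a := by exact_mod_cast ha
  rw [pc_eq]
  have h1 : pr (fun x : Fin (M + a) → Fin n × Fin n => Col k (supp x)) ≤
      pr (fun x : Fin (M + a) → Fin n × Fin n => Col k (supp x) ∧ M ≤ (supp x).card) +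
      pr (fun x : Fin (M + a) → Fin n × Fin n => (supp x).card < M) := by
    refine le_trans (pr_mono ?_) (pr_or_le _ _)
    intro x hx
    rcases le_or_gt M (supp x).card with h | h
    · exact Or.inl ⟨hx, h⟩
    · exact Or.inr h
  have h2 : pr (fun x : Fin (M + a) → Fin n × Fin n => Col k (supp x) ∧ M ≤ (supp x).card) ≤
      ps k n M := by
    rw [pr_avg (fun S : Finset (Edg n) => Col k S ∧ M ≤ S.card)]
    have hps : 0 ≤ ps k n M := by unfold ps; positivity
    apply avg_le_of_le hps
    intro x
    rcases lt_or_ge (supp x).card M with h | h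
    · refine le_trans (le_of_eq ?_) hps
      have h3 : (fun π : Equiv.Perm (Edg n) => ind (Col k ((supp x).map π.toEmbedding) ∧
          M ≤ ((supp x).map π.toEmbedding).card)) = fun _ => 0 := by
        funext π
        rw [ind_false]
        rintro ⟨_, h4⟩
        rw [Finset.card_map] at h4
        omega
      unfold pr
      rw [h3, avg_const]
    · obtain ⟨T, hT, hTc⟩ := Finset.exists_subset_card_eq h
      have h3 := pr_perm_col k n T
      rw [hTc] at h3
      rw [← h3]
      apply pr_mono
      intro π hπ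
      exact Col_mono (Finset.map_subset_map.2 hT) hπ.1
  have h3 : pr (fun x : Fin (M + a) → Fin n × Fin n => (supp x).card < M) ≤
      ((M + a : ℝ) / n + (M + a : ℝ) ^ 2 / n ^ 2) * 2 / a := by
    have h4 : pr (fun x : Fin (M + a) → Fin n × Fin n => (supp x).card < M) ≤
        avg fun x : Fin (M + a) → Fin n × Fin n => (∑ i, ind (bad x i)) * (1 / a) := by
      apply pr_le_avg
      · intro x
        exact mul_nonneg (Finset.sum_nonneg fun i _ => ind_nonneg _) (by positivity)
      · intro x hx
        have h5 := card_good_le x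
        have h6 : ((supp x).card : ℝ) ≤ M := by exact_mod_cast hx.le
        push_cast at h5
        have h7 : (a : ℝ) ≤ ∑ i, ind (bad x i) := by linarith
        rw [mul_one_div, le_div_iff₀ ha']
        linarith
    refine h4.trans ?_
    rw [avg_mul_right, mul_one_div]
    apply div_le_div_of_nonneg_right _ ha'.le
    have h5 := avg_bad (n := n) (M := M + a) hn
    push_cast at h5
    exact h5
  linarith

end Pool.ER
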